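import Pool.Agent.V5helper49.LR.Stm2

/-!
# Project LR (helper49), job GAPP: an interval of length `(log m)^(2+ε)` is rarely free of elements of the model
-/

set_option autoImplicit false

namespace Pool.Agent.V5helper3.LR

open Finset MeasureTheory ProbabilityTheory Filter
open scoped ENNReal Topology
open Pool.Agent.V5helper42.RS
open Pool.Agent.V5helper49.LR (S_EMP S_LS S_GAPP)
open Pool.Agent.W41 (V V_ge V_pos fac_pos fac_le_one V_le_one)

open Classical in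
/-- the three phases -/
theorem phases (hE : S_EMP) (m y z : ℕ) (l₁ l₂ l₃ : List ℕ) (h1 : ∀ p ∈ l₁, 0 < p ∧ p ≤ z)
    (h2n : l₂.Nodup) (h2 : ∀ p ∈ l₂, z < p ∧ p ≤ y) (h3n : l₃.Nodup) (h3 : ∀ p ∈ l₃, y < p) (hzy : z ≤ y)
    (κ N : ℝ) (hκ : 0 ≤ κ) (hb : ∀ p ∈ l₂, 2 * κ * ((y : ℝ) / p + 1) ≤ 1) (hs : 4 * κ * SS y l₂ ≤ 1 / 8)
    (hP : 1 / 4 ≤ PP l₂) (hP3 : κ ≤ PP l₃) (hA : ∀ ρ : ℕ → ℕ, N ≤ ((S ρ l₁ (Ioc m (m + y))).card : ℝ)) :
    EE (l₁ ++ (l₂ ++ l₃)) (fun ρ => if S ρ (l₁ ++ (l₂ ++ l₃)) (Ioc m (m + y)) = ∅ then 1 else 0) (fun _ => 0) ≤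
      Real.exp (-(κ * N / 8)) := by
  rw [EE_append]
  apply EE_le_const l₁ (fun p hp => (h1 p hp).1)
  intro ρ _ _
  rw [EE_append]
  have hpos2 : ∀ p ∈ l₂, 0 < p := fun p hp => (Nat.zero_le z).trans_lt (h2 p hp).1
  have hpos3 : ∀ p ∈ l₃, 0 < p := fun p hp => (Nat.zero_le y).trans_lt (h3 p hp)
  have hd12 : ∀ p ∈ l₁, p ∉ l₂ := fun p hp h => absurd (h2 p h).1 (not_lt.2 (h1 p hp).2)
  have hd13 : ∀ p ∈ l₁, p ∉ l₃ := fun p hp h => absurd (h3 p h) (not_lt.2 ((h1 p hp).2.trans hzy))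
  have hd23 : ∀ p ∈ l₂, p ∉ l₃ := fun p hp h => absurd (h3 p h) (not_lt.2 (h2 p hp).2)
  obtain ⟨A₁, hA₁⟩ : ∃ A₁, A₁ = S ρ l₁ (Ioc m (m + y)) := ⟨_, rfl⟩
  have hA1s : A₁ ⊆ Ioc m (m + y) := by rw [hA₁]; exact S_subset _ _ _
  have hstep : EE l₂ (fun ρ' => EE l₃ (fun σ => if S σ (l₁ ++ (l₂ ++ l₃)) (Ioc m (m + y)) = ∅ then 1 else 0) ρ') ρ ≤
      EE l₂ (fun ρ' => Real.exp ((-κ) * ((S ρ' l₂ A₁).card : ℝ))) ρ := by
    apply EE_mono
    intro ρ' h' _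
    have he : EE l₃ (fun σ => if S σ (l₁ ++ (l₂ ++ l₃)) (Ioc m (m + y)) = ∅ then (1 : ℝ) else 0) ρ' =
        EE l₃ (fun σ => if S σ l₃ (S ρ' l₂ A₁) = ∅ then 1 else 0) ρ' := by
      apply EE_congr
      intro σ hσ _
      have : S σ (l₁ ++ (l₂ ++ l₃)) (Ioc m (m + y)) = S σ l₃ (S ρ' l₂ A₁) := by
        rw [S_append, S_append, hA₁]
        congr 1
        rw [S_congr (ρ := σ) (ρ' := ρ') (l := l₂) _ (fun p hp => hσ p (hd23 p hp))]
        congr 1
        apply S_congr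
        intro p hp
        rw [hσ p (hd13 p hp), h' p (hd12 p hp)]
      simp only [this]
    rw [he]
    refine (hE m y l₃ h3n h3 (S ρ' l₂ A₁) ((S_subset _ _ _).trans hA1s) ρ').trans ?_
    obtain ⟨q0, q1⟩ := PP_nonneg l₃ hpos3
    have h5 : 1 - PP l₃ ≤ Real.exp (-κ) := by
      have := Real.add_one_le_exp (-κ)
      linarith
    calc (1 - PP l₃) ^ (S ρ' l₂ A₁).card ≤ (Real.exp (-κ)) ^ (S ρ' l₂ A₁).card :=
          pow_le_pow_left₀ (by linarith) h5 _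
      _ = Real.exp ((-κ) * ((S ρ' l₂ A₁).card : ℝ)) := by
          rw [← Real.exp_nat_mul, mul_comm]
  refine hstep.trans ?_
  have habs : |(-κ)| = κ := by rw [abs_neg, abs_of_nonneg hκ]
  refine (ee_exp m y (-κ) l₂ h2n hpos2 (by rw [habs]; exact hb) (by rw [habs]; linarith) A₁ hA1s ρ).trans ?_
  apply Real.exp_le_exp.2
  have hN := hA ρ
  rw [← hA₁] at hN
  have hc0 : (0 : ℝ) ≤ (A₁.card : ℝ) := Nat.cast_nonneg _
  have h6 : -κ * PP l₂ + 4 * (-κ) ^ 2 * SS y l₂ ≤ -(κ / 8) := by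
    have h7 : 4 * (-κ) ^ 2 * SS y l₂ = κ * (4 * κ * SS y l₂) := by ring
    rw [h7]
    have h8 := mul_le_mul_of_nonneg_left hs hκ
    have h9 := mul_le_mul_of_nonneg_left hP hκ
    linarith
  have h7 := mul_le_mul_of_nonneg_right h6 hc0
  have h8 : κ / 8 * N ≤ κ / 8 * (A₁.card : ℝ) := mul_le_mul_of_nonneg_left hN (by positivity)
  linarith

/-- `V` is antitone -/
lemma V_anti {A B : Finset ℕ} (h : A ⊆ B) (hB : ∀ p ∈ B, p.Prime) : V B ≤ V A := by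
  have e : V B = V A * V (B \ A) := by
    unfold V
    rw [← prod_union disjoint_sdiff, union_sdiff_of_subset h]
  rw [e]
  exact mul_le_of_le_one_right (V_pos fun p hp => hB p (h hp)).le
    (V_le_one fun p hp => hB p (mem_sdiff.1 hp).1)

/-- the primes in `(z, y]` -/
lemma V_mid (z y : ℕ) (hzy : z ≤ y) : V ((Ioc z y).filter Nat.Prime) = W z / W y := by
  have e : (Icc 1 y).filter Nat.Prime = (Icc 1 z).filter Nat.Prime ∪ (Ioc z y).filter Nat.Prime := by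
    ext p
    simp only [mem_filter, mem_union, mem_Icc, mem_Ioc]
    constructor
    · rintro ⟨⟨h1, h2⟩, h3⟩
      by_cases h : p ≤ z
      · exact Or.inl ⟨⟨h1, h⟩, h3⟩
      · exact Or.inr ⟨⟨by omega, h2⟩, h3⟩
    · rintro (⟨⟨h1, h2⟩, h3⟩ | ⟨⟨h1, h2⟩, h3⟩)
      · exact ⟨⟨h1, by omega⟩, h3⟩
      · exact ⟨⟨h3.one_lt.le, h2⟩, h3⟩
  have hd : Disjoint ((Icc 1 z).filter Nat.Prime) ((Ioc z y).filter Nat.Prime) := by
    rw [disjoint_left]
    intro p h1 h2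
    rw [mem_filter, mem_Icc] at h1
    rw [mem_filter, mem_Ioc] at h2
    omega
  have h1 : V ((Icc 1 y).filter Nat.Prime) = V ((Icc 1 z).filter Nat.Prime) * V ((Ioc z y).filter Nat.Prime) := by
    conv_lhs => rw [e]
    unfold V
    rw [prod_union hd]
  have h2 := V_pos (fun p hp => (mem_filter.1 hp).2 : ∀ p ∈ (Icc 1 z).filter Nat.Prime, p.Prime)
  have h3 := V_pos (fun p hp => (mem_filter.1 hp).2 : ∀ p ∈ (Ioc z y).filter Nat.Prime, p.Prime)
  rw [W_eq, W_eq, h1]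
  field_simp

/-- Mertens for `z = ⌊y^(1/2 - η)⌋` -/
lemma mertens_mid (η : ℝ) (hη : 0 < η) (hη1 : η ≤ 1 / 40) :
    ∀ᶠ y : ℕ in atTop, W y ≤ 4 * W ⌊(y : ℝ) ^ (1 / 2 - η)⌋₊ := by
  have hγ := Real.exp_pos Real.eulerMascheroniConstant
  obtain ⟨g, hg⟩ : ∃ g : ℝ, g = Real.exp Real.eulerMascheroniConstant := ⟨_, rfl⟩
  rw [← hg] at hγ
  have hM := Pool.Agent.H305R2.mertens_three
  rw [← hg] at hM
  have hu := hM.eventually (gt_mem_nhds (show g < 11 / 10 * g by linarith))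
  have hl := hM.eventually (lt_mem_nhds (show 9 / 10 * g < g by linarith))
  have hexp : 0 < 1 / 2 - η := by linarith
  have hz : Tendsto (fun y : ℕ => ⌊(y : ℝ) ^ (1 / 2 - η)⌋₊) atTop atTop :=
    tendsto_nat_floor_atTop.comp ((tendsto_rpow_atTop hexp).comp tendsto_natCast_atTop_atTop)
  have hlogz : Tendsto (fun y : ℕ => Real.log (⌊(y : ℝ) ^ (1 / 2 - η)⌋₊ : ℝ)) atTop atTop :=
    Real.tendsto_log_atTop.comp (tendsto_natCast_atTop_atTop.comp hz)
  filter_upwards [hu, hz.eventually hl, hz.eventually_ge_atTop 1, hlogz.eventually_ge_atTop 10, eventually_ge_atTop 2]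
    with y h1 h2 h3 h4 h5
  obtain ⟨z, hzz⟩ : ∃ z : ℕ, z = ⌊(y : ℝ) ^ (1 / 2 - η)⌋₊ := ⟨_, rfl⟩
  rw [← hzz] at h2 h3 h4 ⊢
  have hy1 : (1 : ℝ) < y := by exact_mod_cast h5
  have hy0 : (0 : ℝ) < y := by linarith
  have hly : 0 < Real.log y := Real.log_pos hy1
  have hz1 : (1 : ℝ) ≤ z := by exact_mod_cast h3
  have hz0 : (0 : ℝ) < z := by linarith
  have h1' : W y < 11 / 10 * g * Real.log y := by
    have : W y / Real.log y < 11 / 10 * g := h1
    rwa [div_lt_iff₀ hly] at this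
  have h2' : 9 / 10 * g * Real.log z < W z := by
    have : 9 / 10 * g < W z / Real.log z := h2
    rwa [lt_div_iff₀ (by linarith)] at this
  have h6 : (y : ℝ) ^ (1 / 2 - η) < 2 * z := by
    have := Nat.lt_floor_add_one ((y : ℝ) ^ (1 / 2 - η))
    rw [← hzz] at this
    linarith
  have h7 : (1 / 2 - η) * Real.log y ≤ Real.log 2 + Real.log z := by
    have h8 := Real.log_le_log (Real.rpow_pos_of_pos hy0 _) h6.le
    rw [Real.log_rpow hy0, Real.log_mul (by norm_num) hz0.ne'] at h8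
    exact h8
  have h8 : Real.log 2 ≤ 1 := by have := Real.log_two_lt_d9; linarith
  have h9 : (19 / 40 : ℝ) * Real.log y ≤ 11 / 10 * Real.log z := by
    have : (19 / 40 : ℝ) * Real.log y ≤ (1 / 2 - η) * Real.log y :=
      mul_le_mul_of_nonneg_right (by linarith) hly.le
    linarith
  have h10 : g * Real.log y ≤ 44 / 19 * (g * Real.log z) := by
    have := mul_le_mul_of_nonneg_left h9 hγ.le
    linarith
  have h11 : 0 < g * Real.log z := mul_pos hγ (by linarith)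
  linarith

/-- the numerical inequalities, in terms of `y` -/
lemma numerics (ε : ℝ) (hε : 0 < ε) (hε1 : ε ≤ 1) (c : ℝ) (hc : 0 < c) :
    ∀ᶠ y : ℕ in atTop, ∀ L : ℝ, 0 < L → L ^ (2 + ε) ≤ 2 * y →
      2 * L ≤ ((⌊(y : ℝ) ^ (1 / 2 - ε / 40)⌋₊ : ℝ) / (64 * y)) * (c * y / Real.log y) / 8 ∧
      (⌊(y : ℝ) ^ (1 / 2 - ε / 40)⌋₊ : ℝ) / (64 * y) ≤ 1 / (2 * L) ∧
      1 ≤ ⌊(y : ℝ) ^ (1 / 2 - ε / 40)⌋₊ ∧ 4 * (⌊(y : ℝ) ^ (1 / 2 - ε / 40)⌋₊ : ℝ) ≤ y := by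
  have hexp : 0 < 1 / 2 - ε / 40 := by linarith
  have hz : Tendsto (fun y : ℕ => ⌊(y : ℝ) ^ (1 / 2 - ε / 40)⌋₊) atTop atTop :=
    tendsto_nat_floor_atTop.comp ((tendsto_rpow_atTop hexp).comp tendsto_natCast_atTop_atTop)
  have hlog : ∀ᶠ y : ℕ in atTop, Real.log y ≤ (c / 4096) * (y : ℝ) ^ (ε / 20) := by
    have h1 := (isLittleO_log_rpow_atTop (show 0 < ε / 20 by positivity)).bound (show 0 < c / 4096 by positivity)
    have h2 := tendsto_natCast_atTop_atTop (R := ℝ) |>.eventually h1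
    filter_upwards [h2, eventually_ge_atTop 1] with y hy hy1
    rw [Real.norm_eq_abs, Real.norm_eq_abs, abs_of_nonneg (Real.rpow_nonneg (Nat.cast_nonneg y) _)] at hy
    exact (le_abs_self _).trans hy
  filter_upwards [hlog, hz.eventually_ge_atTop 1, eventually_ge_atTop 16] with y h1 h2 h3
  intro L hL hLy
  obtain ⟨z, hzz⟩ : ∃ z : ℕ, z = ⌊(y : ℝ) ^ (1 / 2 - ε / 40)⌋₊ := ⟨_, rfl⟩
  rw [← hzz] at h2 ⊢
  have hy16 : (16 : ℝ) ≤ y := by exact_mod_cast h3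
  have hy0 : (0 : ℝ) < y := by linarith
  have hy1 : (1 : ℝ) ≤ y := by linarith
  have hly : 0 < Real.log y := Real.log_pos (by linarith)
  have hz1 : (1 : ℝ) ≤ z := by exact_mod_cast h2
  have hzl : (y : ℝ) ^ (1 / 2 - ε / 40) < 2 * z := by
    have := Nat.lt_floor_add_one ((y : ℝ) ^ (1 / 2 - ε / 40))
    rw [← hzz] at this
    linarith
  have hzu : (z : ℝ) ≤ (y : ℝ) ^ (1 / 2 - ε / 40) := by
    rw [hzz]
    exact Nat.floor_le (Real.rpow_nonneg hy0.le _)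
  have hzs : (z : ℝ) ≤ Real.sqrt y := by
    rw [Real.sqrt_eq_rpow]
    exact hzu.trans (Real.rpow_le_rpow_of_exponent_le hy1 (by linarith))
  -- L ≤ 2 y^(1/(2+ε)) ≤ 2 y^(1/2 - 3ε/40)
  have hLu : L ≤ 2 * (y : ℝ) ^ (1 / 2 - ε / 40 - ε / 20) := by
    have h4 : L = (L ^ (2 + ε)) ^ (1 / (2 + ε)) := by
      rw [← Real.rpow_mul hL.le, mul_one_div_cancel (by linarith), Real.rpow_one]
    have h5 : (L ^ (2 + ε)) ^ (1 / (2 + ε)) ≤ (2 * (y : ℝ)) ^ (1 / (2 + ε)) :=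
      Real.rpow_le_rpow (Real.rpow_nonneg hL.le _) hLy (by positivity)
    rw [Real.mul_rpow (by norm_num) hy0.le] at h5
    have h6 : (2 : ℝ) ^ (1 / (2 + ε)) ≤ 2 := by
      calc (2 : ℝ) ^ (1 / (2 + ε)) ≤ (2 : ℝ) ^ (1 : ℝ) := by
            apply Real.rpow_le_rpow_of_exponent_le (by norm_num)
            rw [div_le_one (by linarith)]; linarith
        _ = 2 := Real.rpow_one 2
    have h7 : (y : ℝ) ^ (1 / (2 + ε)) ≤ (y : ℝ) ^ (1 / 2 - ε / 40 - ε / 20) := by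
      apply Real.rpow_le_rpow_of_exponent_le hy1
      rw [div_le_iff₀ (by linarith)]
      nlinarith
    rw [h4]
    refine h5.trans ?_
    exact mul_le_mul h6 h7 (Real.rpow_nonneg hy0.le _) (by norm_num)
  have hLs : L ≤ 2 * Real.sqrt y := by
    refine hLu.trans ?_
    rw [Real.sqrt_eq_rpow]
    apply mul_le_mul_of_nonneg_left _ (by norm_num)
    exact Real.rpow_le_rpow_of_exponent_le hy1 (by linarith)
  have hsq : Real.sqrt y * Real.sqrt y = y := Real.mul_self_sqrt hy0.le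
  have hs4 : 4 ≤ Real.sqrt y := by
    rw [show (4 : ℝ) = Real.sqrt 16 by
      rw [show (16 : ℝ) = 4 ^ 2 by norm_num, Real.sqrt_sq (by norm_num)]]
    exact Real.sqrt_le_sqrt hy16
  have hs0 : 0 ≤ Real.sqrt y := Real.sqrt_nonneg _
  refine ⟨?_, ?_, h2, ?_⟩
  · have e : ((z : ℝ) / (64 * y)) * (c * y / Real.log y) / 8 = c * z / (512 * Real.log y) := by
      field_simp
      ring
    rw [e, le_div_iff₀ (by positivity)]
    have h4 : (y : ℝ) ^ (1 / 2 - ε / 40) = (y : ℝ) ^ (1 / 2 - ε / 40 - ε / 20) * (y : ℝ) ^ (ε / 20) := by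
      rw [← Real.rpow_add hy0]
      congr 1
      ring
    obtain ⟨u, hu⟩ : ∃ u : ℝ, u = (y : ℝ) ^ (1 / 2 - ε / 40 - ε / 20) := ⟨_, rfl⟩
    obtain ⟨v, hv⟩ : ∃ v : ℝ, v = (y : ℝ) ^ (ε / 20) := ⟨_, rfl⟩
    have hu0 : 0 < u := by rw [hu]; exact Real.rpow_pos_of_pos hy0 _
    have hv0 : 0 < v := by rw [hv]; exact Real.rpow_pos_of_pos hy0 _
    rw [← hu] at hLu
    rw [← hv] at h1
    rw [h4, ← hu, ← hv] at hzl
    -- 2 L * 512 log y ≤ 2 * 2u * 512 * c/4096 v = c u v / 2 ≤ c z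
    have h5 : L * Real.log y ≤ (2 * u) * (c / 4096 * v) := mul_le_mul hLu h1 hly.le (by positivity)
    have h6 : c * (u * v) ≤ c * (2 * z) := mul_le_mul_of_nonneg_left hzl.le hc.le
    nlinarith
  · rw [div_le_div_iff₀ (by positivity) (by positivity)]
    have h4 : (z : ℝ) * L ≤ Real.sqrt y * (2 * Real.sqrt y) := mul_le_mul hzs hLs hL.le hs0
    nlinarith
  · nlinarith

/-- `(log m)^(2+ε) ≤ m` for large `m` -/
lemma floor_le (ε : ℝ) (hε1 : ε ≤ 1) : ∀ᶠ m : ℕ in atTop, ⌊Real.log m ^ (2 + ε)⌋₊ ≤ m := by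
  have h1 := (isLittleO_log_rpow_atTop (show (0 : ℝ) < 1 / 3 by norm_num)).bound (show (0 : ℝ) < 1 by norm_num)
  have h2 := tendsto_natCast_atTop_atTop (R := ℝ) |>.eventually h1
  filter_upwards [h2, ev_log 0 1, eventually_ge_atTop 1] with m hm hL hm1
  have hm0 : (0 : ℝ) ≤ m := Nat.cast_nonneg m
  have hL1 : (1 : ℝ) ≤ Real.log m := by simpa using hL
  rw [Real.norm_eq_abs, Real.norm_eq_abs, abs_of_nonneg (Real.rpow_nonneg hm0 _), one_mul] at hm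
  have h3 : Real.log m ≤ (m : ℝ) ^ (1 / 3 : ℝ) := (le_abs_self _).trans hm
  have h4 : Real.log m ^ (2 + ε) ≤ m := by
    calc Real.log m ^ (2 + ε) ≤ Real.log m ^ (3 : ℝ) := Real.rpow_le_rpow_of_exponent_le hL1 (by linarith)
      _ ≤ ((m : ℝ) ^ (1 / 3 : ℝ)) ^ (3 : ℝ) := Real.rpow_le_rpow (by linarith) h3 (by norm_num)
      _ = m := by rw [← Real.rpow_mul hm0]; norm_num
  exact Nat.floor_le_of_le h4

open Classical in
/-- **Job GAPP** -/
theorem t_GAPP.{u} (hLS : S_LS) (hE : S_EMP) : S_GAPP.{u} := by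
  intro ε hε hε1
  obtain ⟨c, hc, y₀, hy₀⟩ := hLS (ε / 40) (by positivity) (by linarith)
  have hY : Tendsto (fun m : ℕ => ⌊Real.log m ^ (2 + ε)⌋₊) atTop atTop :=
    tendsto_nat_floor_atTop.comp ((tendsto_rpow_atTop (by linarith)).comp
      (Real.tendsto_log_atTop.comp tendsto_natCast_atTop_atTop))
  filter_upwards [hY.eventually (numerics ε hε hε1 c hc), hY.eventually (mertens_mid (ε / 40) (by positivity) (by linarith)),
    hY.eventually_ge_atTop y₀, hY.eventually_ge_atTop 1, floor_le ε hε1, ev_log 0 1, eventually_ge_atTop 3]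
    with m n1 n2 n3 n4 n5 n6 n7
  intro Ω _ μ _ a hm hi hu
  obtain ⟨y, hy⟩ : ∃ y : ℕ, y = ⌊Real.log m ^ (2 + ε)⌋₊ := ⟨_, rfl⟩
  rw [← hy] at n1 n2 n3 n4 n5
  obtain ⟨z, hz⟩ : ∃ z : ℕ, z = ⌊(y : ℝ) ^ (1 / 2 - ε / 40)⌋₊ := ⟨_, rfl⟩
  rw [← hz] at n1 n2
  obtain ⟨L, hL⟩ : ∃ L : ℝ, L = Real.log m := ⟨_, rfl⟩
  have hL1 : (1 : ℝ) ≤ L := by rw [hL]; simpa using n6
  have hL0 : 0 < L := by linarith
  have hm0 : (0 : ℝ) < m := by exact_mod_cast (by omega : 0 < m)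
  have hy1 : (1 : ℝ) ≤ y := by exact_mod_cast n4
  have hy0 : (0 : ℝ) < y := by linarith
  have hyL : (y : ℝ) ≤ L ^ (2 + ε) := by
    rw [hy, hL]
    exact Nat.floor_le (Real.rpow_nonneg (by rw [← hL]; exact hL0.le) _)
  have hLy : L ^ (2 + ε) ≤ 2 * y := by
    have := Nat.lt_floor_add_one (Real.log m ^ (2 + ε))
    rw [← hy, ← hL] at this
    linarith
  obtain ⟨k1, k2, k3, k4⟩ := n1 L hL0 hLy
  have hz1 : (1 : ℝ) ≤ z := by exact_mod_cast k3
  have hz0 : (0 : ℝ) < z := by linarith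
  have hzy : z ≤ y := by
    have : (z : ℝ) ≤ y := by linarith
    exact_mod_cast this
  obtain ⟨κ, hκ⟩ : ∃ κ : ℝ, κ = (z : ℝ) / (64 * y) := ⟨_, rfl⟩
  rw [← hκ] at k1 k2
  have hκ0 : 0 ≤ κ := by rw [hκ]; positivity
  have hκz : κ * (y / z) = 1 / 64 := by rw [hκ]; field_simp
  have hyz4 : (4 : ℝ) ≤ y / z := by rw [le_div_iff₀ hz0]; exact k4
  obtain ⟨t, ht⟩ : ∃ t : ℝ, t = Real.log ((m + y : ℕ) : ℝ) := ⟨_, rfl⟩
  have ht1 : L ≤ t := by
    rw [hL, ht]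
    exact Real.log_le_log hm0 (by exact_mod_cast (by omega : m ≤ m + y))
  have ht2 : t ≤ 2 * L := by
    have h6 : t ≤ Real.log (2 * m) := by
      rw [ht]
      exact Real.log_le_log (by exact_mod_cast (by omega : 0 < m + y)) (by exact_mod_cast (by omega : m + y ≤ 2 * m))
    rw [Real.log_mul (by norm_num) hm0.ne', ← hL] at h6
    have := Real.log_two_lt_d9; linarith
  obtain ⟨T, hT⟩ : ∃ T : Finset ℕ, T = TT t := ⟨_, rfl⟩
  have hTp : ∀ p ∈ T, p.Prime := by rw [hT]; exact TT_prime t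
  obtain ⟨T₁, hT₁⟩ : ∃ T₁ : Finset ℕ, T₁ = T.filter (fun p => p ≤ z) := ⟨_, rfl⟩
  obtain ⟨T₂, hT₂⟩ : ∃ T₂ : Finset ℕ, T₂ = T.filter (fun p => z < p ∧ p ≤ y) := ⟨_, rfl⟩
  obtain ⟨T₃, hT₃⟩ : ∃ T₃ : Finset ℕ, T₃ = T.filter (fun p => y < p) := ⟨_, rfl⟩
  have g1 : ∀ p ∈ T₁, p.Prime ∧ p ≤ z := by
    intro p hp; rw [hT₁, mem_filter] at hp; exact ⟨hTp p hp.1, hp.2⟩
  have g2 : ∀ p ∈ T₂, p.Prime ∧ z < p ∧ p ≤ y := by
    intro p hp; rw [hT₂, mem_filter] at hp; exact ⟨hTp p hp.1, hp.2⟩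
  have g3 : ∀ p ∈ T₃, p.Prime ∧ y < p := by
    intro p hp; rw [hT₃, mem_filter] at hp; exact ⟨hTp p hp.1, hp.2⟩
  obtain ⟨l, hl⟩ : ∃ l : List ℕ, l = T₁.toList ++ (T₂.toList ++ T₃.toList) := ⟨_, rfl⟩
  have hmem : ∀ p, p ∈ l ↔ p ∈ T := by
    intro p
    rw [hl, hT₁, hT₂, hT₃]
    simp only [List.mem_append, mem_toList, mem_filter]
    constructor
    · rintro (h | h | h) <;> exact h.1
    · intro h
      by_cases h1 : p ≤ z
      · exact Or.inl ⟨h, h1⟩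
      · by_cases h2 : p ≤ y
        · exact Or.inr (Or.inl ⟨h, by omega, h2⟩)
        · exact Or.inr (Or.inr ⟨h, by omega⟩)
  have hnd : l.Nodup := by
    rw [hl]
    refine List.nodup_append.2 ⟨nodup_toList _, List.nodup_append.2 ⟨nodup_toList _, nodup_toList _, ?_⟩, ?_⟩
    · intro p hp q hq hpq
      subst hpq
      have := (g2 p (mem_toList.1 hp)).2.2
      have := (g3 p (mem_toList.1 hq)).2
      omega
    · intro p hp q hq hpq
      subst hpq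
      have h5 := (g1 p (mem_toList.1 hp)).2
      rcases List.mem_append.1 hq with h | h
      · have := (g2 p (mem_toList.1 h)).2.1
        omega
      · have := (g3 p (mem_toList.1 h)).2
        omega
  -- the products
  have hW0 : 0 < W y := W_pos y
  have hV2 : 1 / 4 ≤ V T₂ := by
    have h5 : V ((Ioc z y).filter Nat.Prime) ≤ V T₂ := by
      apply V_anti
      · intro p hp
        rw [mem_filter, mem_Ioc]
        exact ⟨(g2 p hp).2, (g2 p hp).1⟩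
      · intro p hp
        exact (mem_filter.1 hp).2
    rw [V_mid z y hzy] at h5
    refine le_trans ?_ h5
    rw [div_le_div_iff₀ (by norm_num) hW0]
    linarith
  have hV3 : κ ≤ V T₃ := by
    have h5 : V T ≤ V T₃ := V_anti (by rw [hT₃]; exact filter_subset _ _) hTp
    have h6 : 1 / t ≤ V T := by rw [hT]; exact V_TT_ge t (by linarith)
    have h7 : 1 / (2 * L) ≤ 1 / t := one_div_le_one_div_of_le (by linarith) ht2
    linarith
  have hSS : SS y T₂.toList ≤ 2 * (y / z) := by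
    rw [SS_toList]
    have e : ∑ p ∈ T₂, ((y : ℝ) / p + 1) / p = y * ∑ p ∈ T₂, 1 / ((p : ℝ) * p) + ∑ p ∈ T₂, 1 / (p : ℝ) := by
      rw [mul_sum, ← sum_add_distrib]
      apply sum_congr rfl
      intro p hp
      have hp0 : (p : ℝ) ≠ 0 := by exact_mod_cast (g2 p hp).1.ne_zero
      field_simp
    rw [e]
    have h3 := mul_le_mul_of_nonneg_left (sum_inv_sq z k3 T₂ fun p hp => (g2 p hp).2.1) hy0.le
    have h4 := sum_inv_le T₂ fun p hp => (g2 p hp).1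
    have h5 : 1 / V T₂ ≤ 4 := by
      rw [div_le_iff₀ (by linarith)]
      linarith
    have h6 : (y : ℝ) * (1 / z) = y / z := by ring
    linarith
  have hb : ∀ p ∈ T₂.toList, 2 * κ * ((y : ℝ) / p + 1) ≤ 1 := by
    intro p hp
    have h5 : (z : ℝ) ≤ p := by exact_mod_cast (g2 p (mem_toList.1 hp)).2.1.le
    have h6 : (y : ℝ) / p ≤ y / z := div_le_div_of_nonneg_left hy0.le hz0 h5
    have h7 : κ * ((y : ℝ) / p + 1) ≤ κ * (2 * (y / z)) := mul_le_mul_of_nonneg_left (by linarith) hκ0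
    nlinarith
  have hs : 4 * κ * SS y T₂.toList ≤ 1 / 8 := by
    have h5 : κ * SS y T₂.toList ≤ κ * (2 * (y / z)) := mul_le_mul_of_nonneg_left hSS hκ0
    nlinarith
  have hA : ∀ ρ : ℕ → ℕ, c * y / Real.log y ≤ ((S ρ T₁.toList (Ioc m (m + y))).card : ℝ) := by
    intro ρ
    refine (hy₀ y n3 m ρ).trans ?_
    have : (((Ioc m (m + y)).filter (fun n : ℕ => ∀ p : ℕ, p.Prime → (p : ℝ) ≤ (y : ℝ) ^ (1 / 2 - ε / 40) → n % p ≠ ρ p)).card) ≤
        (S ρ T₁.toList (Ioc m (m + y))).card := by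
      apply card_le_card
      intro n hn
      rw [mem_filter] at hn
      unfold S
      rw [mem_filter]
      refine ⟨hn.1, fun p hp => ?_⟩
      rw [mem_toList] at hp
      apply hn.2 p (g1 p hp).1
      have h5 : (p : ℝ) ≤ z := by exact_mod_cast (g1 p hp).2
      refine h5.trans ?_
      rw [hz]
      exact Nat.floor_le (Real.rpow_nonneg hy0.le _)
    exact_mod_cast this
  have key := phases hE m y z T₁.toList T₂.toList T₃.toList
    (fun p hp => ⟨(g1 p (mem_toList.1 hp)).1.pos, (g1 p (mem_toList.1 hp)).2⟩) (nodup_toList _)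
    (fun p hp => (g2 p (mem_toList.1 hp)).2) (nodup_toList _) (fun p hp => (g3 p (mem_toList.1 hp)).2) hzy
    κ (c * y / Real.log y) hκ0 hb hs (by rw [PP_toList]; exact hV2) (by rw [PP_toList]; exact hV3) hA
  rw [← hl] at key
  have hprob := prob_le μ a hm hi hu l hnd (fun p hp => hTp p ((hmem p).1 hp))
    (fun ρ => S ρ l (Ioc m (m + y)) = ∅)
    (by
      intro ρ ρ' h h'
      have h5 : S ρ' l (Ioc m (m + y)) = S ρ l (Ioc m (m + y)) := S_congr _ fun p hp => (h p hp).symm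
      rw [h5]
      exact h')
    (fun ρ => if S ρ l (Ioc m (m + y)) = ∅ then 1 else 0)
    (fun ρ => by split_ifs <;> norm_num)
    (fun ρ hρ => by rw [if_pos hρ])
    (1 / (m : ℝ) ^ 2)
    (by
      refine key.trans ?_
      have h5 : Real.exp (-(κ * (c * y / Real.log y) / 8)) ≤ Real.exp (-(2 * L)) :=
        Real.exp_le_exp.2 (by linarith)
      refine h5.trans (le_of_eq ?_)
      have h6 : (2 : ℝ) * L = ((2 : ℕ) : ℝ) * L := by norm_num
      rw [h6, Real.exp_neg, Real.exp_nat_mul, hL, Real.exp_log hm0, one_div])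
  refine le_trans (measure_mono_ae ?_) hprob
  filter_upwards [ae_lt μ a hm hu] with ω hω h1
  show S (fun q => a q ω) l (Ioc m (m + y)) = ∅
  have h2 := (sandwich (fun q => a q ω) hω m y (by omega)).1
  have h3 : ((Ioc m (m + y)).filter (fun n => n ∈ model (fun q => a q ω))) = ∅ := by
    rw [filter_eq_empty_iff]
    intro n hn
    rw [mem_Ioc] at hn
    apply h1 n hn.1
    have h4 : (n : ℝ) ≤ ((m + y : ℕ) : ℝ) := by exact_mod_cast hn.2
    push_cast at h4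
    rw [← hL]
    linarith
  rw [h3, card_empty, Nat.le_zero, card_eq_zero] at h2
  rw [← h2]
  unfold S
  apply filter_congr
  intro n _
  rw [← ht, ← hT]
  constructor
  · intro h p hp
    exact h p ((hmem p).2 hp)
  · intro h p hp
    exact h p ((hmem p).1 hp)

end Pool.Agent.V5helper3.LR
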