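import Pool.Agent.V5helper49.LR.Stm3
import Pool.Agent.V5helper6.LR.RHO

/-!
# Project LR (helper49), part 3: LR-RHO2 (adapted from `Pool/Agent/V5helper6/LR/RHO.lean` of helper6)
-/

set_option autoImplicit false

namespace Pool.Agent.V5helper3.LR

open Finset MeasureTheory ProbabilityTheory Filter
open scoped ENNReal Topology
open Pool.Agent.V5helper49.LR Pool.Agent.V5helper6.LR
open Pool.Agent.V5helper42.RS (EE S PP W model)

theorem t_RHO2 (h1 : S_INS1) (h2 : S_MAS2) : S_RHO2 := by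
  intro ε h0 h1'
  obtain ⟨X₁, hM⟩ := h2 ε h0 h1'
  obtain ⟨C, hC, hW⟩ := Pool.Agent.V5helper42.RS.W_upper
  have hLt : Tendsto (fun X : ℕ => Real.log (X : ℝ)) atTop atTop :=
    Real.tendsto_log_atTop.comp tendsto_natCast_atTop_atTop
  have h3t : Tendsto (fun X : ℕ => 3 * X) atTop atTop :=
    tendsto_id.const_mul_atTop' (by norm_num)
  have hW' := h3t.eventually hW
  have ea : ∀ᶠ L : ℝ in atTop, (24 : ℝ) ≤ L ^ (ε / 15) :=
    (tendsto_rpow_atTop (by linarith)).eventually_ge_atTop _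
  have eb : ∀ᶠ L : ℝ in atTop, (6 : ℝ) ≤ L ^ (1 - 3 * ε / 5) :=
    (tendsto_rpow_atTop (by linarith)).eventually_ge_atTop _
  have ec := (isLittleO_log_rpow_atTop (show (0 : ℝ) < 1 / 2 by norm_num)).bound (show (0 : ℝ) < 1 / 8 by norm_num)
  have ed : ∀ᶠ L : ℝ in atTop, (16 : ℝ) ≤ L ^ (1 / 2 : ℝ) :=
    (tendsto_rpow_atTop (by norm_num)).eventually_ge_atTop _
  have ef := (isLittleO_rpow_exp_atTop (2 - ε)).bound (show (0 : ℝ) < 1 / 2 by norm_num)
  have hev := hLt.eventually (ea.and (eb.and (ec.and (ed.and (ef.and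
    ((eventually_ge_atTop (2 * C)).and (eventually_ge_atTop (8 : ℝ))))))))
  obtain ⟨X₂, hX₂⟩ := eventually_atTop.1 (hW'.and (hev.and ((eventually_ge_atTop X₁).and (eventually_ge_atTop 3))))
  refine ⟨X₂, ?_⟩
  intro X hX H T V hH hT hV hTV hTc
  obtain ⟨hWX, ⟨ha, hb, hc, hd, hf, hg, h8⟩, hX1, hX3⟩ := hX₂ X hX
  set L := Real.log (X : ℝ) with hLdef
  have hL0 : (0 : ℝ) < L := by linarith
  have hL1 : (1 : ℝ) ≤ L := by linarith
  have hlogL : 0 ≤ Real.log L := Real.log_nonneg hL1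
  have hX3R : (3 : ℝ) ≤ X := by exact_mod_cast hX3
  have hXpos : (0 : ℝ) < X := by linarith
  rw [Real.norm_of_nonneg hlogL, Real.norm_of_nonneg (Real.rpow_nonneg hL0.le _)] at hc
  rw [Real.norm_of_nonneg (Real.rpow_nonneg hL0.le _), Real.norm_of_nonneg (Real.exp_pos L).le,
    hLdef, Real.exp_log hXpos, ← hLdef] at hf
  -- the consequences of MAS
  obtain ⟨-, hM2, -, hM4, hM5⟩ := hM X hX1 H (H + 1) hH (Nat.lt_succ_self H) (by
    have : ((H + 1 : ℕ) : ℝ) ≤ X := by push_cast; linarith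
    exact_mod_cast this)
  rw [← hLdef] at hM2
  have hR : Reg T V (B2 ε X) H (yy ε X) := by
    refine ⟨fun t ht => ?_, fun v hv => ?_, hTV, fun p hp => ?_, hM5⟩
    · exact Nat.lt_succ_iff.1 (mem_range.1 (hT ht))
    · exact Nat.lt_succ_iff.1 (mem_range.1 (hV hv))
    · exact (mem_Ioc.1 (mem_filter.1 hp).1).1.le
  have hlpos : ∀ p ∈ (Q2 ε X).toList, 0 < p := by
    intro p hp
    rw [mem_toList] at hp
    exact ((mem_filter.1 hp).2).pos
  -- the sum
  have hsum : ((Q2 ε X).toList.map (fun p : ℕ => open Classical in if p ∈ B2 ε X then 1 / (p : ℝ) else 0)).sum =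
      ∑ p ∈ B2 ε X, 1 / (p : ℝ) := by
    rw [Finset.sum_map_toList, ← sum_filter]
    apply sum_congr _ (fun _ _ => rfl)
    ext p
    rw [mem_filter]
    exact ⟨fun h => h.2, fun h => ⟨hM4 h, h⟩⟩
  have hVc : (V.card : ℝ) ≤ (H : ℝ) + 1 := by
    have := card_le_card hV
    rw [card_range] at this
    exact_mod_cast this
  have hwpos : (0 : ℝ) < (yy ε X : ℝ) := by
    have : 0 < yy ε X := by omega
    exact_mod_cast this
  have hVw : (V.card : ℝ) / yy ε X ≤ 1 := by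
    rw [div_le_one hwpos]
    have : ((8 * (H + 1) : ℕ) : ℝ) ≤ yy ε X := by exact_mod_cast hM5
    push_cast at this
    have hH0 : (0 : ℝ) ≤ H := Nat.cast_nonneg H
    linarith
  set φ : ℝ := 1 - Real.exp ((V.card : ℝ) / yy ε X - ((Q2 ε X).toList.map (fun p : ℕ => open Classical in if p ∈ B2 ε X then 1 / (p : ℝ) else 0)).sum) with hφ
  set δ : ℝ := 3 * L ^ (-(1 - 3 * ε / 5)) with hδ
  have hδ0 : 0 ≤ δ := by positivity
  have hδ1 : δ ≤ 1 / 2 := by
    rw [hδ, Real.rpow_neg hL0.le, ← div_eq_mul_inv, div_le_iff₀ (by linarith)]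
    linarith
  have hφδ : 1 - δ ≤ φ := by
    rw [hφ, hsum, sub_eq_add_neg ((V.card : ℝ) / yy ε X), Real.exp_add]
    have h3 : Real.exp ((V.card : ℝ) / yy ε X) ≤ 3 :=
      (Real.exp_le_exp.2 hVw).trans (by linarith [Real.exp_one_lt_d9])
    have h4 : Real.exp ((V.card : ℝ) / yy ε X) * Real.exp (-∑ p ∈ B2 ε X, 1 / (p : ℝ)) ≤ δ := by
      rw [hδ]
      exact mul_le_mul h3 hM2 (Real.exp_pos _).le (by norm_num)
    linarith
  have hφe : Real.exp (-(2 * δ)) ≤ φ := (exp_le_one_sub δ hδ0 hδ1).trans hφδ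
  have hφ0 : 0 ≤ φ := (Real.exp_pos _).le.trans hφe
  have hins := INS_all h1 T V (B2 ε X) H (yy ε X) hR (Q2 ε X).toList hlpos φ hφ0 hφ V (Subset.refl V)
  -- the power
  have hpow : Real.exp (-(L ^ (1 - ε / 3) / 2)) ≤ φ ^ V.card := by
    calc Real.exp (-(L ^ (1 - ε / 3) / 2)) ≤ Real.exp ((V.card : ℝ) * (-(2 * δ))) := by
          apply Real.exp_le_exp.2
          have h5 : (V.card : ℝ) * (2 * δ) ≤ L ^ (1 - ε / 3) / 2 := by
            have h6 : (V.card : ℝ) ≤ 2 * L ^ (2 - ε) := by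
              have : (1 : ℝ) ≤ L ^ (2 - ε) := Real.one_le_rpow hL1 (by linarith)
              linarith
            have h7 : L ^ (2 - ε) * L ^ (-(1 - 3 * ε / 5)) * L ^ (ε / 15) = L ^ (1 - ε / 3) := by
              rw [← Real.rpow_add hL0, ← Real.rpow_add hL0]; congr 1; ring
            have h8' : 0 ≤ L ^ (2 - ε) * L ^ (-(1 - 3 * ε / 5)) := by positivity
            calc (V.card : ℝ) * (2 * δ) ≤ (2 * L ^ (2 - ε)) * (2 * δ) :=
                  mul_le_mul_of_nonneg_right h6 (by linarith)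
              _ = 12 * (L ^ (2 - ε) * L ^ (-(1 - 3 * ε / 5))) := by rw [hδ]; ring
              _ ≤ (L ^ (2 - ε) * L ^ (-(1 - 3 * ε / 5)) * L ^ (ε / 15)) / 2 := by nlinarith
              _ = L ^ (1 - ε / 3) / 2 := by rw [h7]
          linarith
      _ = Real.exp (-(2 * δ)) ^ V.card := by rw [Real.exp_nat_mul]
      _ ≤ φ ^ V.card := pow_le_pow_left₀ (Real.exp_pos _).le hφe _
  -- the rest
  have hsq : L ^ (1 / 2 : ℝ) * L ^ (1 / 2 : ℝ) = L := by
    rw [← Real.rpow_add hL0]; norm_num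
  have hTz : 2 * T.card ≤ yy ε X := by
    have h20 := card_le_card hT
    rw [card_range] at h20
    omega
  have hTp : ∀ p ∈ (Q2 ε X).toList, 0 < p ∧ 2 * T.card ≤ p := by
    intro p hp
    refine ⟨hlpos p hp, ?_⟩
    rw [mem_toList] at hp
    have := (mem_Ioc.1 (mem_filter.1 hp).1).1
    omega
  have hfull := A1_full T V (B2 ε X) (Q2 ε X).toList hTp V (Subset.refl V)
  rw [Finset.sum_map_toList] at hfull
  have hQsum : ∑ p ∈ Q2 ε X, 1 / (p : ℝ) ≤ 2 * Real.log L := by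
    have h9 : ∑ p ∈ Q2 ε X, 1 / (p : ℝ) ≤ ∑ p ∈ (Icc 1 (3 * X)).filter Nat.Prime, 1 / (p : ℝ) := by
      apply sum_le_sum_of_subset_of_nonneg
      · intro p hp
        obtain ⟨h10, h11⟩ := mem_filter.1 hp
        exact mem_filter.2 ⟨mem_Icc.2 ⟨h11.pos, (mem_Ioc.1 h10).2⟩, h11⟩
      · intro p _ _; positivity
    refine h9.trans ?_
    rw [← Real.exp_le_exp]
    refine (sum_recip (3 * X)).trans (hWX.trans ?_)
    have h12 : Real.log ((3 * X : ℕ) : ℝ) ≤ 2 * L := by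
      push_cast
      rw [Real.log_mul (by norm_num) hXpos.ne']
      have : Real.log 3 ≤ L := Real.log_le_log (by norm_num) hX3R
      linarith
    have h13 : Real.exp (2 * Real.log L) = L ^ 2 := by
      rw [mul_comm, Real.exp_mul, Real.exp_log hL0]
      norm_num
    rw [h13]
    calc C * Real.log ((3 * X : ℕ) : ℝ) ≤ C * (2 * L) := mul_le_mul_of_nonneg_left h12 hC.le
      _ = (2 * C) * L := by ring
      _ ≤ L * L := mul_le_mul_of_nonneg_right hg hL0.le
      _ = L ^ 2 := by ring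
  have hrest : Real.exp (-(L ^ (1 - ε / 3) / 2)) ≤ A1 T V (B2 ε X) (Q2 ε X).toList V := by
    refine le_trans ?_ hfull
    apply Real.exp_le_exp.2
    apply neg_le_neg
    have hS0 : 0 ≤ ∑ p ∈ Q2 ε X, 1 / (p : ℝ) := sum_nonneg (fun p _ => by positivity)
    have h14 : L ^ (ε / 8) * L ^ (1 / 2 : ℝ) ≤ L ^ (1 - ε / 3) := by
      rw [← Real.rpow_add hL0]
      exact Real.rpow_le_rpow_of_exponent_le hL1 (by linarith)
    have hTc0 : (0 : ℝ) ≤ T.card := Nat.cast_nonneg _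
    calc 2 * (T.card : ℝ) * ∑ p ∈ Q2 ε X, 1 / (p : ℝ) ≤ 2 * L ^ (ε / 8) * (2 * Real.log L) := by
          apply mul_le_mul (by linarith) hQsum hS0 (by positivity)
      _ ≤ 2 * L ^ (ε / 8) * (2 * (1 / 8 * L ^ (1 / 2 : ℝ))) := by
          apply mul_le_mul_of_nonneg_left _ (by positivity)
          linarith
      _ = (L ^ (ε / 8) * L ^ (1 / 2 : ℝ)) / 2 := by ring
      _ ≤ L ^ (1 - ε / 3) / 2 := by linarith
  calc Real.exp (-L ^ (1 - ε / 3)) = Real.exp (-(L ^ (1 - ε / 3) / 2)) * Real.exp (-(L ^ (1 - ε / 3) / 2)) := by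
        rw [← Real.exp_add]; congr 1; ring
    _ ≤ φ ^ V.card * A1 T V (B2 ε X) (Q2 ε X).toList V :=
        mul_le_mul hpow hrest (Real.exp_pos _).le (pow_nonneg hφ0 _)
    _ ≤ _ := hins

end Pool.Agent.V5helper3.LR
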